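import Mathlib

/-!
# MP_856e04_lc: a digraph all of whose colourings contain every finite digraph of large digirth

For every infinite cardinal `κ` and every `n` there is a digraph on `κ` vertices without directed
cycles of length less than `n` such that for every colouring of the vertices with fewer than `κ`
colours every finite digraph without directed cycles of length less than `n` has a monochromatic
induced copy. The lemmas `claim1`, `seq` and `reg` are the earlier run's (library S15001,
R_pool_sql_team_39128cda); its lemma `claim2` is generalised from the cyclic to arbitrary orders.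
-/

set_option autoImplicit false

open Function

namespace Pool.Agent.Results.MP_856e04_lc.UniversalDigraph

universe u

/-- `D` has no loops and no directed cycles of length less than `n` -/
def NoShort {V : Type*} (n : ℕ) (D : Digraph V) : Prop :=
  (∀ v : V, ¬ D.Adj v v) ∧
    ∀ k : ℕ, k + 1 < n → ∀ f : Fin (k + 1) → V, Injective f →
      ¬ ∀ i : Fin (k + 1), D.Adj (f i) (f (i + 1))

/-! ### Linear orders of a finite digraph -/

lemma exists_perm {h : ℕ} {α : Type*} [LinearOrder α] (ρ : Fin h → α) :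
    ∃ π : Equiv.Perm (Fin h), ∀ x y, ρ x < ρ y → π x < π y := by
  refine ⟨(Tuple.sort ρ).symm, fun x y hxy => ?_⟩
  by_contra hcon
  have h1 := Tuple.monotone_sort ρ (not_lt.1 hcon)
  simp only [comp_apply, Equiv.apply_symm_apply] at h1
  exact absurd hxy (not_lt.2 h1)

/-- fewer than `n` arcs of a digraph without short cycles are increasing in some linear order -/
lemma exists_order {h n : ℕ} (H : Digraph (Fin h)) (hH : NoShort n H) (k : ℕ) (hk : k + 1 < n)
    (e : Fin (k + 1) → Fin h × Fin h) (he : ∀ t, H.Adj (e t).1 (e t).2) :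
    ∃ π : Equiv.Perm (Fin h), ∀ t, π (e t).1 < π (e t).2 := by
  classical
  let r : Fin h → Fin h → Prop := fun x y => ∃ t, e t = (x, y)
  have hwf : WellFounded r := by
    rw [WellFounded.wellFounded_iff_has_min]
    intro s hs
    by_contra hcon
    push Not at hcon
    choose! p hp1 hp2 using hcon
    obtain ⟨x, hx⟩ := hs
    have hmem : ∀ j, p^[j] x ∈ s := by
      intro j
      induction j with
      | zero => exact hx
      | succ j ih =>
        rw [iterate_succ_apply']
        exact hp1 _ ih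
    obtain ⟨a, b, hab, heq⟩ : ∃ a b, a < b ∧ p^[a] x = p^[b] x := by
      obtain ⟨a, b, hne, heq⟩ := Finite.exists_ne_map_eq_of_infinite (fun j : ℕ => p^[j] x)
      rcases lt_or_gt_of_ne hne with h1 | h1
      · exact ⟨a, b, h1, heq⟩
      · exact ⟨b, a, h1, heq.symm⟩
    set y := p^[a] x with hy
    have hper : IsPeriodicPt p (b - a) y := by
      show p^[b - a] y = y
      rw [hy, ← iterate_add_apply, Nat.sub_add_cancel hab.le]
      exact heq.symm
    have hpos := hper.minimalPeriod_pos (Nat.sub_pos_of_lt hab)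
    obtain ⟨l, hl⟩ : ∃ l, minimalPeriod p y = l + 1 := ⟨minimalPeriod p y - 1, by omega⟩
    have hys : ∀ j, p^[j] y ∈ s := by
      intro j
      rw [hy, ← iterate_add_apply]
      exact hmem _
    let f : Fin (l + 1) → Fin h := fun i => p^[l - i] y
    have hinj : Injective f := by
      intro i j hij
      have h1 := iterate_injOn_Iio_minimalPeriod (f := p) (x := y)
        (show l - (i : ℕ) ∈ Set.Iio (minimalPeriod p y) by rw [Set.mem_Iio, hl]; omega)
        (show l - (j : ℕ) ∈ Set.Iio (minimalPeriod p y) by rw [Set.mem_Iio, hl]; omega) hij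
      have hi := i.2
      have hj := j.2
      have h1' : l - (i : ℕ) = l - (j : ℕ) := h1
      ext
      omega
    have hstep : ∀ i, f i = p (f (i + 1)) := by
      intro i
      show p^[l - i] y = p (p^[l - (i + 1 : Fin (l + 1))] y)
      rw [← iterate_succ_apply' p, Fin.val_add_one]
      split_ifs with h1
      · rw [h1, Fin.val_last, Nat.sub_self, Nat.sub_zero, iterate_zero, id]
        have := iterate_minimalPeriod (f := p) (x := y)
        rw [hl] at this
        exact this.symm
      · have hi : (i : ℕ) < l := by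
          have := i.2
          rcases Nat.lt_succ_iff_lt_or_eq.1 this with h2 | h2
          · exact h2
          · exact absurd (Fin.ext h2) h1
        congr 1
        congr 1
        omega
    have hr : ∀ i, r (f i) (f (i + 1)) := fun i => by
      rw [hstep i]
      exact hp2 _ (hys _)
    choose g hg using hr
    have hg' : Injective g := by
      intro i j hij
      have h1 := (hg i).symm.trans ((congrArg e hij).trans (hg j))
      exact hinj (Prod.mk.inj h1).1
    have hcard := Fintype.card_le_of_injective g hg'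
    simp only [Fintype.card_fin] at hcard
    refine hH.2 l (by omega) f hinj fun i => ?_
    have := he (g i)
    rw [hg i] at this
    exact this
  have : IsWellFounded (Fin h) r := ⟨hwf⟩
  obtain ⟨π, hπ⟩ := exists_perm (IsWellFounded.rank r)
  exact ⟨π, fun t => hπ _ _ (IsWellFounded.rank_lt_of_rel (r := r) ⟨t, rfl⟩)⟩

/-- an ordered pair of distinct elements is determined by its order in all linear orders -/
lemma pair_eq {h : ℕ} {i j i' j' : Fin h} (hij : i ≠ j) (hij' : i' ≠ j')
    (hall : ∀ π : Equiv.Perm (Fin h), π i' < π j' → π i < π j) : i = i' ∧ j = j' := by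
  have key : ∀ a b : Fin h, a ≠ b → ∃ π : Equiv.Perm (Fin h),
      (∀ x, x ≠ a → π a < π x) ∧ ∀ x, x ≠ b → π x < π b := by
    intro a b hab
    obtain ⟨π, hπ⟩ := exists_perm (fun x : Fin h => if x = a then 0 else if x = b then 2 else 1)
    refine ⟨π, fun x hx => hπ _ _ ?_, fun x hx => hπ _ _ ?_⟩
    · simp only [if_true, hx, if_false]
      split_ifs <;> norm_num
    · simp only [hx, hab.symm, if_true, if_false]
      split_ifs <;> norm_num
  have h1 : i = i' := by
    by_contra hne
    obtain ⟨π, h1, h2⟩ := key i' i (Ne.symm hne)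
    exact lt_asymm (hall π (h1 j' hij'.symm)) (h2 j hij.symm)
  subst h1
  refine ⟨rfl, ?_⟩
  by_contra hne
  obtain ⟨π, h1, h2⟩ := key j j' hne
  exact lt_asymm (hall π (h2 i hij')) (h1 i hij)

/-! ### The cofinal tree -/

section helpers

variable {O : Type u} [LinearOrder O]

def Pos (P : (ℕ → O) → Prop) : ℕ → ℕ → (ℕ → O) → Prop
  | 0, _, a => P a
  | d + 1, p, a => ∀ α, ∃ β, α < β ∧ Pos P d (p + 1) (Function.update a p β)

lemma claim1 {C : Type u} (hub : ∀ f : C → O, ∃ b, ∀ i, f i < b) (c : (ℕ → O) → C) (d : ℕ) :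
    ∀ p a, ∃ q, Pos (fun a => c a = q) d p a := by
  induction d with
  | zero => intro p a; exact ⟨c a, rfl⟩
  | succ d ih =>
    intro p a
    by_contra hc
    have : ∀ q, ∃ α, ∀ β, α < β → ¬ Pos (fun a => c a = q) d (p + 1) (Function.update a p β) := by
      intro q
      by_contra h2
      refine hc ⟨q, fun α => ?_⟩
      by_contra h3
      exact h2 ⟨α, fun β hβ h4 => h3 ⟨β, hβ, h4⟩⟩
    choose α hα using this
    obtain ⟨b, hb⟩ := hub α
    obtain ⟨q, hq⟩ := ih (p + 1) (Function.update a p b)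
    exact hα q b (hb q) hq

lemma seq (o : O) (Φ : ℕ → O → Prop) (h : ∀ t α, ∃ β, α < β ∧ Φ t β) :
    ∃ b : ℕ → O, (∀ t, b t < b (t + 1)) ∧ ∀ t, Φ t (b t) := by
  choose nx h1 h2 using h
  refine ⟨fun t => Nat.rec (nx 0 o) (fun t x => nx (t + 1) x) t, fun t => h1 _ _, fun t => ?_⟩
  cases t with
  | zero => exact h2 _ _
  | succ t => exact h2 _ _

/-- in a positive tree of depth `d` there are `m + 1` branches in prescribed order at each level -/
lemma claim2 (m d : ℕ) (π : ℕ → Equiv.Perm (Fin (m + 1))) (P : (ℕ → O) → Prop) (a0 : ℕ → O)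
    (h0 : Pos P d 0 a0) (j : ℕ) : j ≤ d → ∃ w : Fin (m + 1) → ℕ → O,
      (∀ i, Pos P (d - j) j (w i)) ∧
      ∀ c : ℕ, c < j → ∀ i i', π c i < π c i' → w i c < w i' c := by
  induction j with
  | zero => intro _; exact ⟨fun _ => a0, fun _ => h0, fun c hc => absurd hc (by omega)⟩
  | succ j ih =>
    intro hj
    obtain ⟨w, h1, h2⟩ := ih (by omega)
    rw [show d - j = (d - (j + 1)) + 1 by omega] at h1
    obtain ⟨b, hb, hΦ⟩ := seq (a0 0) (fun t β => Pos P (d - (j + 1)) (j + 1)
      (Function.update (w ((π j).symm (Fin.ofNat (m + 1) t))) j β)) (fun t α => h1 _ α)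
    have hmono : StrictMono b := strictMono_nat_of_lt_succ hb
    refine ⟨fun i => Function.update (w i) j (b (π j i).val), fun i => ?_, fun c hc i i' hi => ?_⟩
    · have := hΦ (π j i).val
      rwa [Fin.ofNat_val_eq_self, Equiv.symm_apply_apply] at this
    · rcases Nat.lt_succ_iff_lt_or_eq.mp hc with h | h
      · simp only
        rw [Function.update_of_ne (by omega), Function.update_of_ne (by omega)]
        exact h2 c h i i' hi
      · subst h
        simp only
        rw [Function.update_self, Function.update_self]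
        exact hmono hi

end helpers

lemma reg (κ : Cardinal.{u}) (hκ : Cardinal.aleph0 ≤ κ) (C : Type u) (hC : Cardinal.mk C < κ) :
    ∃ (O : Type u) (_ : LinearOrder O) (e : O → κ.ord.ToType), StrictMono e ∧ Nonempty O ∧
      ∀ f : C → O, ∃ b, ∀ i, f i < b := by
  obtain ⟨l, hl, h1, h2⟩ : ∃ l : Cardinal.{u}, l.IsRegular ∧ Cardinal.mk C < l ∧ l ≤ κ := by
    rcases lt_or_ge (Cardinal.mk C) Cardinal.aleph0 with h | h
    · exact ⟨_, Cardinal.isRegular_aleph0, h, hκ⟩
    · exact ⟨_, Cardinal.isRegular_succ h, Order.lt_succ _, Order.succ_le_of_lt hC⟩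
  have hmk : Cardinal.mk l.ord.ToType = l := by simp
  refine ⟨l.ord.ToType, inferInstance, Ordinal.initialSegToType (Cardinal.ord_le_ord.mpr h2),
    (Ordinal.initialSegToType (Cardinal.ord_le_ord.mpr h2)).strictMono, ?_, fun f => ?_⟩
  · rw [← Cardinal.mk_ne_zero_iff, hmk]
    exact hl.pos.ne'
  · by_contra hc
    push Not at hc
    have h3 : ∀ i, Cardinal.mk (Set.Iic (f i)) < l := by
      intro i
      rw [← Set.Iio_insert]
      refine lt_of_le_of_lt Cardinal.mk_insert_le ?_
      exact Cardinal.add_lt_of_lt hl.aleph0_le (Cardinal.mk_Iio_toType_ord_lt (f i))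
        (lt_of_lt_of_le Cardinal.one_lt_aleph0 hl.aleph0_le)
    have h4 := (Cardinal.card_iUnion_lt_iff_forall_of_isRegular hl h1).mpr h3
    have h5 : (⋃ i, Set.Iic (f i)) = Set.univ := by
      refine Set.eq_univ_of_forall fun b => ?_
      obtain ⟨i, hi⟩ := hc b
      exact Set.mem_iUnion.mpr ⟨i, hi⟩
    rw [h5, Cardinal.mk_univ, hmk] at h4
    exact lt_irrefl _ h4

/-! ### The digraph -/

/-- the number of linear orders of `Fin h` -/
def dm (h : ℕ) : ℕ := Fintype.card (Equiv.Perm (Fin h))

lemma dm_pos (h : ℕ) : 0 < dm h := Fintype.card_pos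

/-- the `c`th linear order of `Fin h` -/
noncomputable def pr (h : ℕ) (c : ℕ) : Equiv.Perm (Fin h) :=
  if hc : c < dm h then (Fintype.equivFin (Equiv.Perm (Fin h))).symm ⟨c, hc⟩ else 1

lemma exists_pr {h : ℕ} (π : Equiv.Perm (Fin h)) : ∃ c : Fin (dm h), pr h c = π := by
  have hlt : ((Fintype.equivFin (Equiv.Perm (Fin h)) π : Fin _) : ℕ) < dm h :=
    (Fintype.equivFin (Equiv.Perm (Fin h)) π).2
  refine ⟨⟨_, hlt⟩, ?_⟩
  unfold pr
  rw [dif_pos hlt]
  exact Equiv.symm_apply_apply _ _

/-- the pair `u, v` has the order pattern of an arc of `R` -/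
def Arc {K : Type u} [LinearOrder K] {h : ℕ} (R : Fin h → Fin h → Prop)
    (x y : Fin (dm h) → K) : Prop :=
  ∃ i j, R i j ∧ ∀ c : Fin (dm h), (pr h c i < pr h c j → x c < y c) ∧
    (pr h c j < pr h c i → y c < x c)

/-- the index set: all finite digraphs -/
abbrev Ix : Type := Σ h : ℕ, (Fin h → Fin h → Prop)

/-- the digraph on `Fin h` with arcs `R` -/
def dg {h : ℕ} (R : Fin h → Fin h → Prop) : Digraph (Fin h) := ⟨R⟩

/-- the vertices -/
abbrev Vx (K : Type u) : Type u := Σ x : Ix, (Fin (dm x.1) → K)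

/-- the digraph: the disjoint union of the digraphs of order patterns -/
def DD (K : Type u) [LinearOrder K] (n : ℕ) : Digraph (Vx K) :=
  ⟨fun a b => ∃ (x : Ix) (s t : Fin (dm x.1) → K), a = ⟨x, s⟩ ∧ b = ⟨x, t⟩ ∧
    NoShort n (dg x.2) ∧ Arc x.2 s t⟩

lemma DD_adj (K : Type u) [LinearOrder K] (n : ℕ) (x : Ix) (s t : Fin (dm x.1) → K) :
    (DD K n).Adj ⟨x, s⟩ ⟨x, t⟩ ↔ NoShort n (dg x.2) ∧ Arc x.2 s t := by
  constructor
  · rintro ⟨x', s', t', h1, h2, h3, h4⟩
    obtain ⟨rfl, h1⟩ := Sigma.mk.inj h1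
    obtain ⟨-, h2⟩ := Sigma.mk.inj h2
    rw [eq_of_heq h1, eq_of_heq h2]
    exact ⟨h3, h4⟩
  · rintro ⟨h1, h2⟩
    exact ⟨x, s, t, rfl, rfl, h1, h2⟩

lemma noShort_DD (K : Type u) [LinearOrder K] (n : ℕ) : NoShort n (DD K n) := by
  constructor
  · rintro ⟨x, s⟩ h
    obtain ⟨h1, i, j, hR, h2⟩ := (DD_adj K n x s s).1 h
    have hne : i ≠ j := by
      rintro rfl
      exact h1.1 i hR
    have h3 := h2 ⟨0, dm_pos _⟩
    rcases lt_or_gt_of_ne (fun h : pr x.1 0 i = pr x.1 0 j => hne ((pr x.1 0).injective h))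
      with h4 | h4
    · exact lt_irrefl _ (h3.1 h4)
    · exact lt_irrefl _ (h3.2 h4)
  · intro k hk f _ h
    have hcomp : ∀ t : Fin (k + 1), (f t).1 = (f 0).1 := by
      intro t
      induction t using Fin.induction with
      | zero => rfl
      | succ t ih =>
        obtain ⟨x, s, t', h1, h2, -⟩ := h t.castSucc
        rw [Fin.coeSucc_eq_succ] at h2
        rw [h2]
        rw [h1] at ih
        exact ih
    have hex : ∀ t : Fin (k + 1), ∃ s : Fin (dm (f 0).1.1) → K, f t = ⟨(f 0).1, s⟩ := by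
      intro t
      have h1 := hcomp t
      generalize (f 0).1 = x at h1
      generalize f t = v at h1
      obtain ⟨x', s⟩ := v
      simp only at h1
      subst h1
      exact ⟨s, rfl⟩
    choose g hg using hex
    have hadj : ∀ t : Fin (k + 1), NoShort n (dg (f 0).1.2) ∧ Arc (f 0).1.2 (g t) (g (t + 1)) := by
      intro t
      rw [← DD_adj, ← hg, ← hg]
      exact h t
    choose i j hR hc using fun t => (hadj t).2
    obtain ⟨π, hπ⟩ := exists_order (dg (f 0).1.2) (hadj 0).1 k hk (fun t => (i t, j t))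
      (fun t => hR t)
    obtain ⟨c, rfl⟩ := exists_pr π
    obtain ⟨t, ht⟩ := Finite.exists_max (fun t => g t c)
    exact absurd ((hc t c).1 (hπ t)) (not_lt.2 (ht _))

lemma mk_Vx (κ : Cardinal.{u}) (hκ : Cardinal.aleph0 ≤ κ) :
    Cardinal.mk (Vx κ.ord.ToType) = κ := by
  have h1 : ∀ x : Ix, Cardinal.mk (Fin (dm x.1) → κ.ord.ToType) = κ := by
    intro x
    rw [Cardinal.mk_arrow, Cardinal.mk_toType, Cardinal.card_ord, Cardinal.mk_fin,
      Cardinal.lift_natCast, Cardinal.lift_uzero, Cardinal.power_natCast]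
    exact Cardinal.power_nat_eq hκ (dm_pos _)
  have h0 : Cardinal.mk (Vx κ.ord.ToType) = Cardinal.sum (fun _ : Ix => κ) := by
    rw [Cardinal.mk_sigma]
    congr 1
    funext x
    exact h1 x
  rw [h0, Cardinal.sum_const, Cardinal.lift_uzero]
  have h2 : Cardinal.lift.{u} (Cardinal.mk Ix) ≤ Cardinal.aleph0 := by
    rw [Cardinal.lift_le_aleph0]
    exact Cardinal.mk_le_aleph0
  apply le_antisymm
  · exact (mul_le_mul' (h2.trans hκ) le_rfl).trans (Cardinal.mul_eq_self hκ).le
  · have h3 : 1 ≤ Cardinal.lift.{u} (Cardinal.mk Ix) := by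
      rw [Cardinal.one_le_lift_iff, Cardinal.one_le_iff_ne_zero, Cardinal.mk_ne_zero_iff]
      exact ⟨⟨0, fun _ _ => True⟩⟩
    calc κ = 1 * κ := (one_mul κ).symm
      _ ≤ _ := mul_le_mul' h3 le_rfl

/-- **Main theorem.** For every infinite cardinal `κ` and every `n` there is a digraph `D` on `κ`
vertices, without loops and directed cycles of length less than `n`, such that for every colouring
of the vertices with fewer than `κ` colours and every finite digraph `H` without loops and directed
cycles of length less than `n`, `D` contains a monochromatic induced copy of `H`. -/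
theorem result (κ : Cardinal.{u}) (hκ : Cardinal.aleph0 ≤ κ) (n : ℕ) :
    ∃ (V : Type u) (D : Digraph V), Cardinal.mk V = κ ∧ NoShort n D ∧
      ∀ (C : Type u) (c : V → C), Cardinal.mk C < κ →
        ∀ (W : Type) [Finite W] (H : Digraph W), NoShort n H →
          ∃ φ : W → V, Injective φ ∧ (∀ a b, D.Adj (φ a) (φ b) ↔ H.Adj a b) ∧
            ∀ a b, c (φ a) = c (φ b) := by
  refine ⟨Vx κ.ord.ToType, DD κ.ord.ToType n, mk_Vx κ hκ, noShort_DD _ n,
    fun C c hC W _ H hH => ?_⟩
  rcases isEmpty_or_nonempty W with hW | hW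
  · exact ⟨fun a => hW.elim a, fun a => hW.elim a, fun a => hW.elim a, fun a => hW.elim a⟩
  have := Fintype.ofFinite W
  obtain ⟨m, hm⟩ : ∃ m, Fintype.card W = m + 1 :=
    ⟨Fintype.card W - 1, (Nat.succ_pred_eq_of_pos Fintype.card_pos).symm⟩
  let ε : W ≃ Fin (m + 1) := Fintype.equivFinOfCardEq hm
  let R : Fin (m + 1) → Fin (m + 1) → Prop := fun i j => H.Adj (ε.symm i) (ε.symm j)
  have hR : NoShort n (dg R) := ⟨fun v hv => hH.1 _ hv, fun k hk f hf h =>
    hH.2 k hk (fun t => ε.symm (f t)) (ε.symm.injective.comp hf) h⟩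
  obtain ⟨O, _, e, he, ⟨o⟩, hub⟩ := reg κ hκ C hC
  let x : Ix := ⟨m + 1, R⟩
  obtain ⟨q, hq⟩ := claim1 hub
    (fun a => c ⟨x, fun i : Fin (dm (m + 1)) => e (a i)⟩) (dm (m + 1)) 0 (fun _ => o)
  obtain ⟨w, h1, h2⟩ := claim2 m (dm (m + 1)) (pr (m + 1)) _ _ hq (dm (m + 1)) le_rfl
  rw [Nat.sub_self] at h1
  have h3 : ∀ (c : Fin (dm (m + 1))) (i j : Fin (m + 1)), pr (m + 1) c i < pr (m + 1) c j →
      e (w i c) < e (w j c) := fun c i j hij => he (h2 c c.2 i j hij)
  have h4 : ∀ (c : Fin (dm (m + 1))) (i j : Fin (m + 1)), e (w i c) < e (w j c) →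
      pr (m + 1) c i < pr (m + 1) c j := by
    intro c i j hij
    rcases lt_trichotomy (pr (m + 1) c i) (pr (m + 1) c j) with h | h | h
    · exact h
    · rw [(pr (m + 1) c).injective h] at hij
      exact absurd hij (lt_irrefl _)
    · exact absurd hij (lt_asymm (h3 c j i h))
  let ψ : Fin (m + 1) → Vx κ.ord.ToType := fun i => ⟨x, fun c => e (w i c)⟩
  have hψ : ∀ i j, (DD κ.ord.ToType n).Adj (ψ i) (ψ j) ↔ R i j := by
    intro i j
    rw [DD_adj]
    constructor
    · rintro ⟨-, i', j', hR', hc⟩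
      have hne' : i' ≠ j' := by
        rintro rfl
        exact hR.1 i' hR'
      have hne : i ≠ j := by
        rintro rfl
        have h5 := hc ⟨0, dm_pos _⟩
        rcases lt_or_gt_of_ne (fun h : pr (m + 1) 0 i' = pr (m + 1) 0 j' =>
          hne' ((pr (m + 1) 0).injective h)) with h6 | h6
        · exact lt_irrefl _ (h5.1 h6)
        · exact lt_irrefl _ (h5.2 h6)
      obtain ⟨rfl, rfl⟩ := pair_eq hne hne' fun π hπ => by
        obtain ⟨c, rfl⟩ := exists_pr π
        exact h4 c i j ((hc c).1 hπ)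
      exact hR'
    · intro hij
      exact ⟨hR, i, j, hij, fun c => ⟨h3 c i j, h3 c j i⟩⟩
  have hψinj : Injective ψ := by
    intro i j hij
    by_contra hne
    have h5 : (fun c : Fin (dm (m + 1)) => e (w i c)) =
        (fun c : Fin (dm (m + 1)) => e (w j c)) :=
      eq_of_heq (Sigma.mk.inj hij).2
    have h6 := congrFun h5 ⟨0, dm_pos _⟩
    rcases lt_or_gt_of_ne (fun h : pr (m + 1) 0 i = pr (m + 1) 0 j =>
      hne ((pr (m + 1) 0).injective h)) with h7 | h7
    · exact absurd h6 (h3 ⟨0, dm_pos _⟩ i j h7).ne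
    · exact absurd h6 (h3 ⟨0, dm_pos _⟩ j i h7).ne'
  refine ⟨fun a => ψ (ε a), hψinj.comp ε.injective, fun a b => ?_, fun a b => ?_⟩
  · rw [hψ]
    simp only [R, Equiv.symm_apply_apply]
  · exact (h1 (ε a)).trans (h1 (ε b)).symm

end Pool.Agent.Results.MP_856e04_lc.UniversalDigraph
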